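import Pool.Agent.W169.HF.Defs

/-! Subtask HF-LIM (owner helper169): (1+(t/n)D^2)^n f -> e^{tD^2} f locally uniformly. -/

set_option autoImplicit false

open Complex MeasureTheory Filter Topology Set
open scoped ComplexConjugate

namespace Pool.Agent.W216.HF.Lim

open Pool.Agent.W169.HF

theorem iter_add (f : ℂ → ℂ) (k : ℕ) :
    iteratedDeriv 2 (iteratedDeriv (2 * k) f) = iteratedDeriv (2 * (k + 1)) f := by
  rw [iteratedDeriv_eq_iterate, iteratedDeriv_eq_iterate, iteratedDeriv_eq_iterate,
    ← Function.iterate_add_apply]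
  congr 1
  ring_nf

theorem pascal (n : ℕ) (a : ℕ → ℂ) :
    ∑ k ∈ Finset.range (n + 1), (n.choose k : ℂ) * a k
      + ∑ k ∈ Finset.range (n + 1), (n.choose k : ℂ) * a (k + 1)
      = ∑ k ∈ Finset.range (n + 2), ((n + 1).choose k : ℂ) * a k := by
  rw [Finset.sum_range_succ' (fun k => ((n + 1).choose k : ℂ) * a k) (n + 1)]
  have h1 : ∑ k ∈ Finset.range (n + 1), (n.choose k : ℂ) * a k
      = ∑ k ∈ Finset.range (n + 2), (n.choose k : ℂ) * a k := by
    rw [Finset.sum_range_succ _ (n + 1), Nat.choose_succ_self]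
    simp
  rw [h1, Finset.sum_range_succ' (fun k => (n.choose k : ℂ) * a k) (n + 1)]
  have h2 : ∀ k, ((n + 1).choose (k + 1) : ℂ) * a (k + 1)
      = (n.choose (k + 1) : ℂ) * a (k + 1) + (n.choose k : ℂ) * a (k + 1) := by
    intro k
    rw [Nat.choose_succ_succ]
    push_cast
    ring
  rw [Finset.sum_congr rfl (fun k _ => h2 k), Finset.sum_add_distrib]
  simp only [Nat.choose_zero_right, Nat.cast_one]
  ring

theorem step_iter (f : ℂ → ℂ) (hf : Differentiable ℂ f) (α : ℝ) (n : ℕ) (z : ℂ) :
    ((step α)^[n] f) z = ∑ k ∈ Finset.range (n + 1),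
      (n.choose k : ℂ) * (((α ^ k : ℝ) : ℂ) * iteratedDeriv (2 * k) f z) := by
  induction n generalizing z with
  | zero => simp
  | succ n ih =>
    rw [Function.iterate_succ_apply']
    have hfun : ((step α)^[n] f) = fun z => ∑ k ∈ Finset.range (n + 1),
      (n.choose k : ℂ) * (((α ^ k : ℝ) : ℂ) * iteratedDeriv (2 * k) f z) := funext ih
    have hd : iteratedDeriv 2 ((step α)^[n] f) z = ∑ k ∈ Finset.range (n + 1),
        (n.choose k : ℂ) * (((α ^ k : ℝ) : ℂ) * iteratedDeriv (2 * (k + 1)) f z) := by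
      rw [hfun, iteratedDeriv_fun_sum]
      · apply Finset.sum_congr rfl
        intro k _
        rw [iteratedDeriv_const_mul_field, iteratedDeriv_const_mul_field, iter_add]
      · intro k _
        have h1 : ContDiff ℂ ⊤ f := hf.contDiff
        have h2 : ContDiff ℂ ((2 : ℕ) : WithTop ℕ∞) (iteratedDeriv (2 * k) f) := by
          rw [iteratedDeriv_eq_iterate]
          exact contDiff_infty.1 (ContDiff.iterate_deriv (2 * k) (h1.of_le le_top)) 2
        exact (contDiff_const.mul (contDiff_const.mul h2)).contDiffAt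
    rw [step, hd, ih, Finset.mul_sum]
    rw [← pascal n (fun k => ((α ^ k : ℝ) : ℂ) * iteratedDeriv (2 * k) f z)]
    congr 1
    apply Finset.sum_congr rfl
    intro k _
    push_cast
    ring

theorem lim_of (h : S_DER) : S_LIM := by
  intro f hf t ht
  -- the constants
  set δ : ℝ := 1 / (60 * (t + 1)) with hδ
  have hδ0 : 0 < δ := by positivity
  have hδt : 30 * δ * t ≤ 1 / 2 := by
    rw [hδ]
    have : 30 * (1 / (60 * (t + 1))) * t = (t / (t + 1)) * (1 / 2) := by
      field_simp
      ring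
    rw [this]
    have h1 : t / (t + 1) ≤ 1 := by
      rw [div_le_one (by positivity)]
      linarith
    linarith
  obtain ⟨K, hK, hder⟩ := h f hf δ hδ0
  rw [tendstoLocallyUniformly_iff_forall_isCompact]
  intro S hS
  obtain ⟨R, hR⟩ := hS.isBounded.subset_closedBall 0
  set R' : ℝ := max R 0 with hR'
  set E : ℝ := Real.exp (2 * δ * R' ^ 2) with hE
  have hE0 : 0 < E := Real.exp_pos _
  have hder' : ∀ (k : ℕ) (z : ℂ), z ∈ S →
      ‖iteratedDeriv (2 * k) f z‖ ≤ K * (k.factorial : ℝ) * (30 * δ) ^ k * E := by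
    intro k z hz
    refine (hder k z).trans ?_
    apply mul_le_mul_of_nonneg_left _ (by positivity)
    rw [hE]
    apply Real.exp_le_exp.2
    apply mul_le_mul_of_nonneg_left _ (by positivity)
    have h1 := hR hz
    rw [Metric.mem_closedBall, dist_zero_right] at h1
    exact pow_le_pow_left₀ (norm_nonneg _) (h1.trans (le_max_left _ _)) 2
  -- coefficients
  set cf : ℕ → ℕ → ℝ := fun n k => ((n + 1).choose k : ℝ) * (t / ((n : ℝ) + 1)) ^ k with hcf
  have hcf0 : ∀ n k, 0 ≤ cf n k := fun n k => by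
    simp only [hcf]
    positivity
  have hcf1 : ∀ n k, cf n k ≤ t ^ k / (k.factorial : ℝ) := by
    intro n k
    simp only [hcf]
    have h1 := Nat.choose_le_pow_div (α := ℝ) k (n + 1)
    have hn : (0 : ℝ) < (n : ℝ) + 1 := by positivity
    calc ((n + 1).choose k : ℝ) * (t / ((n : ℝ) + 1)) ^ k
        ≤ (((n + 1 : ℕ) : ℝ) ^ k / (k.factorial : ℝ)) * (t / ((n : ℝ) + 1)) ^ k :=
          mul_le_mul_of_nonneg_right h1 (by positivity)
      _ = t ^ k / (k.factorial : ℝ) := by
          push_cast
          rw [div_pow]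
          field_simp
  have hcfl : ∀ k, Tendsto (fun n => cf n k) atTop (𝓝 (t ^ k / (k.factorial : ℝ))) := by
    intro k
    have h1 : Tendsto (fun n : ℕ => (n : ℝ) * (t / (n : ℝ))) atTop (𝓝 t) := by
      have h2 : (fun _ : ℕ => t) =ᶠ[atTop] (fun n : ℕ => (n : ℝ) * (t / (n : ℝ))) := by
        filter_upwards [eventually_ge_atTop 1] with n hn
        have : (n : ℝ) ≠ 0 := by
          have : (1 : ℝ) ≤ n := by exact_mod_cast hn
          linarith
        field_simp
      exact tendsto_const_nhds.congr' h2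
    have h3 := (ProbabilityTheory.tendsto_choose_mul_pow_atTop k h1).comp (tendsto_add_atTop_nat 1)
    refine h3.congr ?_
    intro n
    simp only [hcf, Function.comp]
    push_cast
    rfl
  -- the bounds
  set b : ℕ → ℕ → ℝ := fun n k =>
    (t ^ k / (k.factorial : ℝ) - cf n k) * (K * (k.factorial : ℝ) * (30 * δ) ^ k * E) with hb
  have hb0 : ∀ n k, 0 ≤ b n k := by
    intro n k
    simp only [hb]
    exact mul_nonneg (sub_nonneg.2 (hcf1 n k)) (by positivity)
  have hgeo : ∀ k : ℕ, t ^ k / (k.factorial : ℝ) * (K * (k.factorial : ℝ) * (30 * δ) ^ k * E)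
      ≤ K * E * (1 / 2) ^ k := by
    intro k
    have e : t ^ k / (k.factorial : ℝ) * (K * (k.factorial : ℝ) * (30 * δ) ^ k * E)
        = K * E * (30 * δ * t) ^ k := by
      rw [mul_pow _ t]
      field_simp
    rw [e]
    apply mul_le_mul_of_nonneg_left _ (by positivity)
    exact pow_le_pow_left₀ (by positivity) hδt k
  have hgs : Summable (fun k : ℕ => K * E * (1 / 2 : ℝ) ^ k) :=
    (summable_geometric_of_lt_one (by norm_num) (by norm_num)).mul_left _
  have hble : ∀ n k, b n k ≤ K * E * (1 / 2) ^ k := by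
    intro n k
    refine le_trans ?_ (hgeo k)
    simp only [hb]
    apply mul_le_mul_of_nonneg_right _ (by positivity)
    have := hcf0 n k
    linarith
  have hbs : ∀ n, Summable (b n) := fun n => Summable.of_nonneg_of_le (hb0 n) (hble n) hgs
  have hlim : Tendsto (fun n => ∑' k, b n k) atTop (𝓝 0) := by
    have h1 : Tendsto (fun n => ∑' k, b n k) atTop (𝓝 (∑' _ : ℕ, (0 : ℝ))) := by
      apply tendsto_tsum_of_dominated_convergence hgs
      · intro k
        have h2 : Tendsto (fun n => b n k) atTop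
            (𝓝 ((t ^ k / (k.factorial : ℝ) - t ^ k / (k.factorial : ℝ)) *
              (K * (k.factorial : ℝ) * (30 * δ) ^ k * E))) :=
          (tendsto_const_nhds.sub (hcfl k)).mul_const _
        rwa [sub_self, zero_mul] at h2
      · filter_upwards with n k
        rw [Real.norm_eq_abs, abs_of_nonneg (hb0 n k)]
        exact hble n k
    rwa [tsum_zero] at h1
  rw [Metric.tendstoUniformlyOn_iff]
  intro ε hε
  filter_upwards [hlim.eventually (gt_mem_nhds hε)] with n hn z hz
  refine lt_of_le_of_lt ?_ hn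
  -- both sides as series
  set F : ℕ → ℂ := fun k => iteratedDeriv (2 * k) f z with hF
  have hFb : ∀ k, ‖F k‖ ≤ K * (k.factorial : ℝ) * (30 * δ) ^ k * E := fun k => hder' k z hz
  have hs1 : Summable (fun k => ((t ^ k / (k.factorial : ℝ) : ℝ) : ℂ) * F k) := by
    apply Summable.of_norm_bounded hgs
    intro k
    rw [norm_mul, Complex.norm_real, Real.norm_eq_abs, abs_of_nonneg (by positivity)]
    exact (mul_le_mul_of_nonneg_left (hFb k) (by positivity)).trans (hgeo k)
  have hs2 : HasSum (fun k => ((cf n k : ℝ) : ℂ) * F k) (((step (t / ((n : ℝ) + 1)))^[n + 1] f) z) := by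
    rw [step_iter f hf.1]
    have h1 : ∀ k, ((cf n k : ℝ) : ℂ) * F k
        = ((n + 1).choose k : ℂ) * ((((t / ((n : ℝ) + 1)) ^ k : ℝ) : ℂ) * iteratedDeriv (2 * k) f z) := by
      intro k
      simp only [hcf, hF]
      push_cast
      ring
    rw [← Finset.sum_congr rfl (fun k _ => h1 k)]
    apply hasSum_sum_of_ne_finset_zero
    intro k hk
    rw [Finset.mem_range, not_lt] at hk
    simp only [hcf]
    rw [Nat.choose_eq_zero_of_lt (by omega)]
    simp
  have e : hs t f z - ((step (t / ((n : ℝ) + 1)))^[n + 1] f) z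
      = ∑' k, (((t ^ k / (k.factorial : ℝ) - cf n k : ℝ)) : ℂ) * F k := by
    rw [← hs2.tsum_eq]
    have : hs t f z = ∑' k, ((t ^ k / (k.factorial : ℝ) : ℝ) : ℂ) * F k := rfl
    rw [this, ← hs1.tsum_sub hs2.summable]
    congr 1
    funext k
    push_cast
    ring
  rw [dist_eq_norm, e]
  apply tsum_of_norm_bounded (hbs n).hasSum
  intro k
  rw [norm_mul, Complex.norm_real, Real.norm_eq_abs, abs_of_nonneg (sub_nonneg.2 (hcf1 n k))]
  simp only [hb]
  exact mul_le_mul_of_nonneg_left (hFb k) (sub_nonneg.2 (hcf1 n k))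

end Pool.Agent.W216.HF.Lim
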